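import Pool.Agent.W996.MW.Stm

/-! Project MW (helper996): tensor powers of operators. -/

set_option autoImplicit false

open scoped ComplexOrder Matrix

namespace Pool.Agent.W101.MW

open Pool.Agent.W996.MW

/-- The tensor product of a family of operators. -/
def Ten {κ : Type} (K : ℕ) (B : Fin K → Matrix (κ → Bool) (κ → Bool) ℂ) :
    Matrix (Fin K × κ → Bool) (Fin K × κ → Bool) ℂ :=
  fun x y => ∏ j : Fin K, B j (fun i => x (j, i)) (fun i => y (j, i))

theorem Ten_mul {κ : Type} [Fintype κ] [DecidableEq κ] (K : ℕ)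
    (B C : Fin K → Matrix (κ → Bool) (κ → Bool) ℂ) :
    Ten K B * Ten K C = Ten K (fun j => B j * C j) := by
  ext x y
  simp only [Matrix.mul_apply, Ten]
  rw [Finset.prod_univ_sum, Fintype.piFinset_univ]
  rw [← Equiv.sum_comp (Equiv.curry (Fin K) κ Bool)]
  refine Finset.sum_congr rfl fun z _ => ?_
  rw [← Finset.prod_mul_distrib]
  rfl

theorem Ten_conjTranspose {κ : Type} (K : ℕ)
    (B : Fin K → Matrix (κ → Bool) (κ → Bool) ℂ) :
    (Ten K B)ᴴ = Ten K (fun j => (B j)ᴴ) := by
  ext x y
  simp [Matrix.conjTranspose_apply, Ten]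

open scoped MatrixOrder in
theorem psd_root {ι : Type} [Fintype ι] [DecidableEq ι] (A : Matrix ι ι ℂ) (h : A.PosSemidef) :
    ∃ C, A = Cᴴ * C := by
  obtain ⟨C, hC⟩ := CStarAlgebra.nonneg_iff_eq_star_mul_self.mp h.nonneg
  exact ⟨C, hC⟩

theorem Ten_psd {κ : Type} [Fintype κ] [DecidableEq κ] (K : ℕ)
    (B : Fin K → Matrix (κ → Bool) (κ → Bool) ℂ) (h : ∀ j, (B j).PosSemidef) :
    (Ten K B).PosSemidef := by
  have h1 : ∀ j, ∃ C, B j = Cᴴ * C := fun j => psd_root _ (h j)
  choose C hC using h1
  have h2 : Ten K B = (Ten K C)ᴴ * Ten K C := by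
    rw [Ten_conjTranspose, Ten_mul]
    congr 1
    funext j
    exact hC j
  rw [h2]
  exact Matrix.posSemidef_conjTranspose_mul_self _

theorem Ten_sub {κ : Type} (K : ℕ) (a : Fin K)
    (M M' N : Fin K → Matrix (κ → Bool) (κ → Bool) ℂ)
    (h : ∀ j, j ≠ a → M' j = M j ∧ N j = M j) (ha : N a = M' a - M a) :
    Ten K M' - Ten K M = Ten K N := by
  classical
  ext x y
  simp only [Matrix.sub_apply, Ten]
  rw [← Finset.mul_prod_erase Finset.univ _ (Finset.mem_univ a),
    ← Finset.mul_prod_erase Finset.univ (fun j => M j _ _) (Finset.mem_univ a),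
    ← Finset.mul_prod_erase Finset.univ (fun j => N j _ _) (Finset.mem_univ a)]
  have e1 : ∏ j ∈ Finset.univ.erase a, M' j (fun i => x (j, i)) (fun i => y (j, i)) =
      ∏ j ∈ Finset.univ.erase a, M j (fun i => x (j, i)) (fun i => y (j, i)) :=
    Finset.prod_congr rfl fun j hj => by rw [(h j (Finset.ne_of_mem_erase hj)).1]
  have e2 : ∏ j ∈ Finset.univ.erase a, N j (fun i => x (j, i)) (fun i => y (j, i)) =
      ∏ j ∈ Finset.univ.erase a, M j (fun i => x (j, i)) (fun i => y (j, i)) :=
    Finset.prod_congr rfl fun j hj => by rw [(h j (Finset.ne_of_mem_erase hj)).2]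
  rw [e1, e2, ha, Matrix.sub_apply, sub_mul]

theorem Ten_mono {κ : Type} [Fintype κ] [DecidableEq κ] (K : ℕ)
    (A B : Fin K → Matrix (κ → Bool) (κ → Bool) ℂ) (hA : ∀ j, (A j).PosSemidef)
    (hAB : ∀ j, (B j - A j).PosSemidef) : (Ten K B - Ten K A).PosSemidef := by
  classical
  have hB : ∀ j, (B j).PosSemidef := fun j => by
    have := (hA j).add (hAB j)
    rwa [add_sub_cancel] at this
  have key : ∀ T : Finset (Fin K),
      (Ten K (fun j => if j ∈ T then B j else A j) - Ten K A).PosSemidef := by
    intro T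
    induction T using Finset.induction_on with
    | empty =>
      simp only [Finset.notMem_empty, if_false]
      have : Ten K (fun j => A j) - Ten K A = 0 := sub_self _
      rw [this]
      exact Matrix.PosSemidef.zero
    | insert a T ha ih =>
      have h1 := Ten_sub K a (fun j => if j ∈ T then B j else A j)
        (fun j => if j ∈ insert a T then B j else A j)
        (fun j => if j = a then B a - A a else if j ∈ T then B j else A j)
        (fun j hj => by simp [hj]) (by simp [ha])
      have h2 : (Ten K (fun j => if j = a then B a - A a else if j ∈ T then B j else A j)).PosSemidef := by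
        apply Ten_psd
        intro j
        by_cases hj : j = a
        · simp only [hj, if_true]; exact hAB a
        · by_cases hjT : j ∈ T
          · simp only [hj, hjT, if_false, if_true]; exact hB j
          · simp only [hj, hjT, if_false]; exact hA j
      rw [← h1] at h2
      have h3 := h2.add ih
      rwa [sub_add_sub_cancel] at h3
  have := key Finset.univ
  simpa using this

theorem Ten_scalar {κ : Type} [Fintype κ] [DecidableEq κ] (K : ℕ) (s : ℝ) :
    Ten (κ := κ) K (fun _ => (s : ℂ) • (1 : Matrix (κ → Bool) (κ → Bool) ℂ)) =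
      ((s ^ K : ℝ) : ℂ) • (1 : Matrix _ _ ℂ) := by
  ext x y
  simp only [Ten, Matrix.smul_apply, Matrix.one_apply, smul_eq_mul, Finset.prod_mul_distrib,
    Finset.prod_const, Finset.card_univ, Fintype.card_fin, Complex.ofReal_pow]
  congr 1
  by_cases h : x = y
  · subst h; simp
  · rw [if_neg h]
    have : ∃ j, (fun i => x (j, i)) ≠ (fun i => y (j, i)) := by
      by_contra hc
      push Not at hc
      apply h
      funext p
      exact congrFun (hc p.1) p.2
    obtain ⟨j, hj⟩ := this
    exact Finset.prod_eq_zero (Finset.mem_univ j) (if_neg hj)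

theorem ten : S_TEN := by
  intro κ _ _ K A
  refine ⟨fun hA => Ten_psd K (fun _ => A) fun _ => hA, fun s _ hA hs => ?_, fun c hc hA => ?_⟩
  · have h := Ten_mono K (fun _ => A) (fun _ => (s : ℂ) • (1 : Matrix (κ → Bool) (κ → Bool) ℂ))
      (fun _ => hA) (fun _ => hs)
    rw [Ten_scalar] at h
    exact h
  · have h := Ten_mono K (fun _ => (c : ℂ) • (1 : Matrix (κ → Bool) (κ → Bool) ℂ)) (fun _ => A)
      (fun _ => Matrix.PosSemidef.one.smul (by exact_mod_cast hc)) (fun _ => hA)
    rw [Ten_scalar] at h
    exact h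

end Pool.Agent.W101.MW
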